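import Pool.Agent.Helper10_BLP.Main

/-!
# MP_2ae58c_pr, Q1: in Brownian last-passage percolation all semi-infinite geodesics are Busemann
geodesics

The answer to Q1 is YES, almost surely, for every direction `θ > 0` (in particular for all
directions of discontinuity `θ ∈ Θ`).  The existence of the Busemann process (as the continuous
version of the limits in probability) is proved as well.
-/

namespace Pool.Agent.Results.MP_2ae58c_pr.AllGeodesicsBusemann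

open MeasureTheory ProbabilityTheory Filter Topology

noncomputable section

/-- The energy of the up-right path with jump times `τ (m - 1) ≤ τ m ≤ ... ≤ τ n`: it runs along
level `r` from `τ (r - 1)` to `τ r` and then steps up. -/
def energy (b : ℤ → ℝ → ℝ) (τ : ℤ → ℝ) (m n : ℤ) : ℝ :=
  ∑ r ∈ Finset.Icc m n, (b r (τ r) - b r (τ (r - 1)))

/-- The last-passage value `L(x, y)`, `x = (m, s)`, `y = (n, t)`: the maximal energy of an up-right
path from `x` to `y`. -/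
def lpp (b : ℤ → ℝ → ℝ) (x y : ℤ × ℝ) : ℝ :=
  sSup {E | ∃ τ : ℤ → ℝ, τ (x.1 - 1) = x.2 ∧ τ y.1 = y.2 ∧
    (∀ r, x.1 ≤ r → r ≤ y.1 → τ (r - 1) ≤ τ r) ∧ E = energy b τ x.1 y.1}

/-- `B r`, `r ∈ ℤ`, are independent two-sided standard Brownian motions: a centred Gaussian process
with covariance `E[B r s * B r' t] = 0` for `r ≠ r'`, `= (|s| + |t| - |s - t|) / 2` for `r = r'` and
almost surely continuous paths. -/
structure IsTwoSidedBM {Ω : Type} [MeasurableSpace Ω] (P : Measure Ω) (B : Ω → ℤ → ℝ → ℝ) :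
    Prop where
  gauss : IsGaussianProcess (fun (i : ℤ × ℝ) (ω : Ω) => B ω i.1 i.2) P
  mean : ∀ r t, ∫ ω, B ω r t ∂P = 0
  cov : ∀ r s r' t, ∫ ω, B ω r s * B ω r' t ∂P = if r = r' then (|s| + |t| - |s - t|) / 2 else 0
  cont : ∀ᵐ ω ∂P, ∀ r, Continuous (B ω r)

/-- `β q x y` is the Busemann function of the rational direction `q > 0`: the limit in probability
of `L(x, (n, n q)) - L(y, (n, n q))`, in a version which is continuous in the times. -/
def IsBusemannProcess {Ω : Type} [MeasurableSpace Ω] (P : Measure Ω) (B : Ω → ℤ → ℝ → ℝ)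
    (β : ℚ → ℤ × ℝ → ℤ × ℝ → Ω → ℝ) : Prop :=
  (∀ q : ℚ, 0 < q → ∀ x y : ℤ × ℝ, TendstoInMeasure P
    (fun (n : ℕ) ω => lpp (B ω) x (n, n * q) - lpp (B ω) y (n, n * q)) atTop (β q x y)) ∧
  ∀ᵐ ω ∂P, ∀ q : ℚ, 0 < q → ∀ m n : ℤ, Continuous fun p : ℝ × ℝ => β q (m, p.1) (n, p.2) ω

/-- `h m t = B^(θ-)((m, 0), (m, t))`: the limit from the left in the direction parameter -/
def IsLeftLimit (β : ℚ → ℤ × ℝ → ℤ × ℝ → ℝ) (θ : ℝ) (h : ℤ → ℝ → ℝ) : Prop := ∀ m t,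
  Tendsto (fun q : ℚ => β q (m, 0) (m, t)) (comap (fun q : ℚ => (q : ℝ)) (𝓝[<] θ)) (𝓝 (h m t))

/-- `h m t = B^(θ+)((m, 0), (m, t))`: the limit from the right in the direction parameter -/
def IsRightLimit (β : ℚ → ℤ × ℝ → ℤ × ℝ → ℝ) (θ : ℝ) (h : ℤ → ℝ → ℝ) : Prop := ∀ m t,
  Tendsto (fun q : ℚ => β q (m, 0) (m, t)) (comap (fun q : ℚ => (q : ℝ)) (𝓝[>] θ)) (𝓝 (h m t))

/-- `τ` is a semi-infinite geodesic from `(m, τ (m - 1))`: all its finite portions from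
`(k, τ (k - 1))` to `(n, τ n)` have maximal energy. -/
def IsGeodesic (b : ℤ → ℝ → ℝ) (m : ℤ) (τ : ℤ → ℝ) : Prop :=
  (∀ r, m ≤ r → τ (r - 1) ≤ τ r) ∧
  ∀ k n, m ≤ k → k ≤ n → energy b τ k n = lpp b (k, τ (k - 1)) (n, τ n)

/-- `τ` is `θ`-directed: `τ r / r → θ` -/
def IsDirected (θ : ℝ) (τ : ℤ → ℝ) : Prop := Tendsto (fun r : ℕ => τ r / r) atTop (𝓝 θ)

/-- `τ` is a Busemann geodesic from `(m, τ (m - 1))` for the function `h`: for all `r ≥ m`,
`B r (τ r) - h (r + 1) (τ r)` is the maximum of `B r s - h (r + 1) s` over `s ≥ τ (r - 1)`. -/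
def IsBusemannGeodesic (b : ℤ → ℝ → ℝ) (h : ℤ → ℝ → ℝ) (m : ℤ) (τ : ℤ → ℝ) : Prop :=
  ∀ r, m ≤ r → τ (r - 1) ≤ τ r ∧ ∀ s, τ (r - 1) ≤ s →
    b r s - h (r + 1) s ≤ b r (τ r) - h (r + 1) (τ r)

/-- THEOREM (Q1 is true).  Let `B` be independent two-sided standard Brownian motions.  The Busemann
process exists, and for every version `β` of it, almost surely, for every `θ > 0` the one-sided
limits `h⁻ = h^(θ-)`, `h⁺ = h^(θ+)` exist and every `θ`-directed semi-infinite geodesic, from any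
starting point, is a Busemann geodesic for `h⁻` or for `h⁺`. -/
theorem result (Ω : Type) [MeasurableSpace Ω] (P : Measure Ω) (B : Ω → ℤ → ℝ → ℝ)
    (hB : IsTwoSidedBM P B) :
    (∃ β : ℚ → ℤ × ℝ → ℤ × ℝ → Ω → ℝ, IsBusemannProcess P B β) ∧
    ∀ β : ℚ → ℤ × ℝ → ℤ × ℝ → Ω → ℝ, IsBusemannProcess P B β →
      ∀ᵐ ω ∂P, ∀ θ : ℝ, 0 < θ → ∃ h₁ h₂ : ℤ → ℝ → ℝ,
        IsLeftLimit (fun q x y => β q x y ω) θ h₁ ∧ IsRightLimit (fun q x y => β q x y ω) θ h₂ ∧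
        ∀ (m : ℤ) (τ : ℤ → ℝ), IsGeodesic (B ω) m τ → IsDirected θ τ →
          IsBusemannGeodesic (B ω) h₁ m τ ∨ IsBusemannGeodesic (B ω) h₂ m τ := by
  have h := Pool.Agent.BLP.H10.res Ω P B ⟨hB.gauss, hB.mean, hB.cov, hB.cont⟩
  exact ⟨h.1.imp fun β hβ => hβ, fun β hβ => h.2 β hβ.1 hβ.2⟩

end

end Pool.Agent.Results.MP_2ae58c_pr.AllGeodesicsBusemann
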